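import Pool.Agent.R965.CS.Top

/-!
# Chung's law of the iterated logarithm for the exploration path at almost every time

Critical bond percolation on `δ ℤ²` in a rectangle `D = (-A, B) × (0, H)`, with the counterclockwise
boundary arc from `a = t + i H` to `b = 0` wired and the other one dual-wired. The exploration path
is parametrised by its number of steps: `Rect.curve` is the piecewise linear curve on `[0, 1]` run
at constant speed, and `Rect.time` is the number of steps times `δ ^ (7/4)`; `Rect.law` is the law
of (curve, time). Weak limits exist along a subsequence of every sequence of meshes. For every weak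
limit `(f, T)`, almost surely, for almost every time `t`, the lower limit of
`sup {|f(s) - f(t)| : T |s - t| ≤ h} / χ(h)`, `h → 0`, `χ(h) = h ^ (4/7) (log log (1/h)) ^ (-1/14)`,
is between `c` and `C`; the constants `c, C > 0` are universal. The lower bound holds for all small
`h` and for the times `s` on each side of `t` separately.

Definitions: `ll` and `chi` below; `Pool.Agent.H984R4.NP.Model` (`Rect`, `pos`, `clamp`, `pl`, `X`,
`Rect.dm`, `Rect.curve`, `Rect.time`, `Rect.law`), `Pool.Agent.H984R4.NP.Defs` (`Dm`, `Dm.edges`,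
`Dm.wir`, `Dm.cfg`, `Dm.walk`, `Dm.len`) and `Pool.Agent.H984R3.Per.Defs` (states, `ae`, `mv`, `rt`,
`nxt`, `orb`).

Plan of the proof. The trial of the new files `Pool.Agent.R965.CS` produces, at the tip of the
path, a tube with a comb of `kk` teeth inside which the path crosses once, without leaving the tube,
and which it fills: so there is a time interval of length `kk ^ (1/4) w ^ (7/4)` during which the
path stays in a ball of radius `w`, with probability at least `exp (-K kk²)`. With
`kk ^ 2 = c log log (1/w)` such intervals cover a non-summable proportion of every time interval at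
the scales `w = 2 ^ (-4 i²)`. The lower bound is the upper bound of the starting files for the
occupation time of the balls around typical points.
-/

set_option autoImplicit false

namespace Pool.Agent.Results.MP_fe58d8_pr.ChungLaw

open H984N MeasureTheory Filter Topology

/-- `max 1 (log log (1/x))` -/
noncomputable def ll (x : ℝ) : ℝ := max 1 (Real.log (Real.log (1 / x)))

/-- `χ(h) = h ^ (4/7) (log log (1/h)) ^ (-1/14)` -/
noncomputable def chi (h : ℝ) : ℝ := h ^ (4/7 : ℝ) / ll h ^ (1/14 : ℝ)

theorem result : ∃ c C : ℝ, 0 < c ∧ 0 < C ∧ ∀ R : Rect,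
    (∀ δ : ℕ → ℝ, (∀ i, 0 < δ i) → Tendsto δ atTop (𝓝 0) →
      ∃ φ : ℕ → ℕ, StrictMono φ ∧ ∃ μ : ProbabilityMeasure X,
        Tendsto (fun i => R.law (δ (φ i))) atTop (𝓝 μ)) ∧
    ∀ δ : ℕ → ℝ, (∀ i, 0 < δ i) → Tendsto δ atTop (𝓝 0) → ∀ μ : ProbabilityMeasure X,
      Tendsto (fun i => R.law (δ i)) atTop (𝓝 μ) →
      ∀ᵐ p ∂(μ : Measure X), 0 < p.2 ∧ ∀ᵐ t : unitInterval,
        (∀ᶠ h : ℝ in 𝓝[>] 0, ∀ s : unitInterval, p.2 * |(s : ℝ) - t| = h →
          ∃ x ∈ Set.uIcc s t, c * chi h < dist (p.1 x) (p.1 t)) ∧
        (∃ᶠ h : ℝ in 𝓝[>] 0, ∀ s : unitInterval, p.2 * |(s : ℝ) - t| ≤ h →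
          dist (p.1 s) (p.1 t) ≤ C * chi h) :=
  Pool.Agent.R965.CS.chung_top

end Pool.Agent.Results.MP_fe58d8_pr.ChungLaw
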