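import Pool.Agent.R965.EV.Top

/-!
# Exact variation of the exploration path in the natural parametrisation

Critical bond percolation on `δ ℤ²` in a rectangle `D = (-A, B) × (0, H)`, with the counterclockwise
boundary arc from `a = t + i H` to `b = 0` wired and the other one dual-wired. The exploration path
is parametrised by its number of steps: `Rect.curve` is the piecewise linear curve on `[0, 1]` run
at constant speed, and `Rect.time` is the number of steps times `δ ^ (7/4)`; `Rect.law` is the law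
of (curve, time). Weak limits exist along a subsequence of every sequence of meshes. For every weak
limit `(f, T)`, almost surely, the `ψ`-variation of `f` on every time interval `[s, t]`, for
`ψ(x) = x ^ (7/4) / (log log (1/x)) ^ (3/4)`, is between `c T (t - s)` and `C T (t - s)`; the
constants `c, C > 0` are universal.

Definitions: `ll`, `psi` and `psiVariation` below; `Pool.Agent.H984R4.NP.Model` (`Rect`, `pos`,
`clamp`, `pl`, `X`, `Rect.dm`, `Rect.curve`, `Rect.time`, `Rect.law`), `Pool.Agent.H984R4.NP.Defs`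
(`Dm`, `Dm.edges`, `Dm.wir`, `Dm.cfg`, `Dm.walk`, `Dm.len`) and `Pool.Agent.H984R3.Per.Defs`
(states, `ae`, `mv`, `rt`, `nxt`, `orb`).

The plan of the proof and the lattice estimates are in the starting files (project EV of
`Pool.Agent.Y41.EV`); the remaining steps and the conclusion are in `Pool.Agent.R965.EV`.
-/

set_option autoImplicit false

namespace Pool.Agent.Results.MP_fe58d8_pr.ExactVariation

open H984N MeasureTheory Filter Topology
open scoped ENNReal

/-- `max 1 (log log (1/x))` -/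
noncomputable def ll (x : ℝ) : ℝ := max 1 (Real.log (Real.log (1 / x)))

/-- `ψ(x) = x ^ (7/4) / (log log (1/x)) ^ (3/4)` -/
noncomputable def psi (x : ℝ) : ℝ := x ^ (7/4 : ℝ) / ll x ^ (3/4 : ℝ)

/-- The `ψ`-variation of the curve `f` on `[s, t]`: the limit (infimum), as `η → 0`, of the
supremum of the sums `∑ ψ(|f(τ_i) - f(τ_(i+1))|)` over the partitions
`s = τ_0 ≤ τ_1 ≤ … ≤ τ_n = t` of mesh at most `η`. -/
noncomputable def psiVariation (f : C(unitInterval, ℂ)) (s t : unitInterval) : ℝ≥0∞ :=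
  ⨅ η : ℝ, ⨅ _ : 0 < η, ⨆ n : ℕ, ⨆ τ : ℕ → unitInterval,
    ⨆ _ : Monotone τ ∧ τ 0 = s ∧ τ n = t ∧ ∀ i < n, (τ (i + 1) : ℝ) - τ i ≤ η,
    ENNReal.ofReal (∑ i ∈ Finset.range n, psi (dist (f (τ i)) (f (τ (i + 1)))))

theorem result : ∃ c C : ℝ, 0 < c ∧ 0 < C ∧ ∀ R : Rect,
    (∀ δ : ℕ → ℝ, (∀ i, 0 < δ i) → Tendsto δ atTop (𝓝 0) →
      ∃ φ : ℕ → ℕ, StrictMono φ ∧ ∃ μ : ProbabilityMeasure X,
        Tendsto (fun i => R.law (δ (φ i))) atTop (𝓝 μ)) ∧
    ∀ δ : ℕ → ℝ, (∀ i, 0 < δ i) → Tendsto δ atTop (𝓝 0) → ∀ μ : ProbabilityMeasure X,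
      Tendsto (fun i => R.law (δ i)) atTop (𝓝 μ) →
      ∀ᵐ p ∂(μ : Measure X), 0 < p.2 ∧ ∀ s t : unitInterval, s ≤ t →
        ENNReal.ofReal (c * (p.2 * ((t : ℝ) - s))) ≤ psiVariation p.1 s t ∧
        psiVariation p.1 s t ≤ ENNReal.ofReal (C * (p.2 * ((t : ℝ) - s))) := by
  obtain ⟨c, C, _, _, hc, hC, _, _, h⟩ := Pool.Agent.R965.EV.ev_top
  refine ⟨c, C, hc, hC, fun R => ⟨(h R).1, fun δ hδ hlim μ hμ => ?_⟩⟩
  filter_upwards [(h R).2 δ hδ hlim μ hμ] with p hp
  obtain ⟨hp0, hU, hL, -, -⟩ := hp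
  refine ⟨hp0, fun s t hst => ⟨?_, ?_⟩⟩
  · rw [← mul_assoc]
    exact Pool.Agent.R965.EV.le_Vpsi hL hst
  · rw [← mul_assoc]
    exact Pool.Agent.R965.EV.Vpsi_le hp0 hC hU hst

end Pool.Agent.Results.MP_fe58d8_pr.ExactVariation
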