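import Pool.Agent.R970.Ind.Inst
import Pool.Agent.Results.MP_fe58d8_pr.UniformDimension

/-!
# Intersections of independent interfaces and independent collections of clusters

Critical bond percolation on `δ ℤ²`
in rectangles with Dobrushin boundary conditions. `μ` is any weak limit of the law of the
exploration path (the interface), and `ν` any weak limit of the law of the collection of all open
clusters, as the mesh goes to zero along some sequence.

Take `k` independent interfaces (in rectangles `R i`, with limit laws `μ i`) and `l` independent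
collections of clusters (in rectangles `R' j`, with limit laws `ν j`), `k + l > 0`. `Common` is the
set of the points which are on all `k` curves and, for each `j`, on a member of the `j`-th
collection which is not a single point, and `Dom` is the intersection of all the rectangles.

* every fixed subset `A` of `Dom`: almost surely `dim (Common ∩ A) ≤ dim A - (k/4 + 5l/48)`
  (truncated at zero), and `Common ∩ A = ∅` if `A` has Hausdorff measure zero in dimension
  `k/4 + 5l/48`;
* every fixed σ-compact subset `S` of `Dom`: the essential supremum of `dim (Common ∩ S)` is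
  `dim S - (k/4 + 5l/48)`, and, if `l > 0`, almost surely
  `dim (Common ∩ S) = dim (S ∩ (all the curves)) - 5l/48`;
* if `12 k + 5 l > 96` then almost surely there is no common point in `Dom`;
* if `12 k + 5 l < 96` and `Dom` is not empty then there is a common point in `Dom` with positive
  probability.
-/

set_option autoImplicit false

namespace Pool.Agent.Results.MP_fe58d8_pr.IndependentIntersections

open MeasureTheory TopologicalSpace Filter Topology
open Pool.Agent.R970.Ind Pool.Agent.H389R2.CL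
open scoped ENNReal

theorem result :
    (∀ (R : H984N.Rect) (δ : ℕ → ℝ), (∀ i, 0 < δ i) → Tendsto δ atTop (𝓝 0) →
      ∃ φ : ℕ → ℕ, StrictMono φ ∧ ∃ μ : ProbabilityMeasure H984N.X,
        Tendsto (fun i => R.law (δ (φ i))) atTop (𝓝 μ)) ∧
    (∀ (R : H934E.Rect) (δ : ℕ → ℝ), (∀ i, 0 < δ i) → Tendsto δ atTop (𝓝 0) →
      ∃ φ : ℕ → ℕ, StrictMono φ ∧ ∃ ν : ProbabilityMeasure (NonemptyCompacts (NonemptyCompacts ℂ)),
        Tendsto (fun i => collLaw R (δ (φ i))) atTop (𝓝 ν)) ∧
    (∀ (k l : ℕ), 0 < k + l → ∀ (R : Fin k → H984N.Rect) (R' : Fin l → H934E.Rect)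
      (δ : Fin k → ℕ → ℝ), (∀ i n, 0 < δ i n) → (∀ i, Tendsto (δ i) atTop (𝓝 0)) →
      ∀ μ : Fin k → ProbabilityMeasure H984N.X,
        (∀ i, Tendsto (fun n => (R i).law (δ i n)) atTop (𝓝 (μ i))) →
      ∀ δ' : Fin l → ℕ → ℝ, (∀ j n, 0 < δ' j n) → (∀ j, Tendsto (δ' j) atTop (𝓝 0)) →
      ∀ ν : Fin l → ProbabilityMeasure (NonemptyCompacts (NonemptyCompacts ℂ)),
        (∀ j, Tendsto (fun n => collLaw (R' j) (δ' j n)) atTop (𝓝 (ν j))) →
      ∀ P : Measure ((Fin k → H984N.X) × (Fin l → NonemptyCompacts (NonemptyCompacts ℂ))),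
        P = (Measure.pi fun i => (μ i : Measure H984N.X)).prod
          (Measure.pi fun j => (ν j : Measure (NonemptyCompacts (NonemptyCompacts ℂ)))) →
        (∀ A : Set ℂ, A ⊆ Dom R R' → ∀ᵐ x ∂P,
          dimH (Common x.1 x.2 ∩ A) ≤ dimH A - ENNReal.ofReal (k / 4 + 5 * l / 48) ∧
          (μH[(k / 4 + 5 * l / 48 : ℝ)] A = 0 → Common x.1 x.2 ∩ A = ∅)) ∧
        (∀ S : Set ℂ, IsSigmaCompact S → S ⊆ Dom R R' →
          essSup (fun x => dimH (Common x.1 x.2 ∩ S)) P =
            dimH S - ENNReal.ofReal (k / 4 + 5 * l / 48)) ∧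
        (0 < l → ∀ S : Set ℂ, IsSigmaCompact S → S ⊆ Dom R R' → ∀ᵐ x ∂P,
          dimH (Common x.1 x.2 ∩ S) =
            dimH ((⋂ i, Set.range (x.1 i).1) ∩ S) - ENNReal.ofReal (5 * l / 48)) ∧
        (96 < 12 * k + 5 * l → ∀ᵐ x ∂P, Common x.1 x.2 ∩ Dom R R' = ∅) ∧
        (12 * k + 5 * l < 96 → (Dom R R').Nonempty →
          MeasurableSet {x : (Fin k → H984N.X) × (Fin l → NonemptyCompacts (NonemptyCompacts ℂ)) |
            (Common x.1 x.2 ∩ Dom R R').Nonempty} ∧
          0 < P {x | (Common x.1 x.2 ∩ Dom R R').Nonempty})) := by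
  refine ⟨fun R => (MP_fe58d8_pr.UniformDimension.result R).1, 
    fun R δ hδ hlim => coll_precompact R hδ hlim, ?_⟩
  rintro k l hkl R R' δ hδ hlim μ hμ δ' hδ' hlim' ν hν P rfl
  obtain ⟨⟨T, hT, hU⟩, hcond⟩ := sys_all Pool.Agent.H160R2.SA.arSharp R R' hδ hlim hμ hδ' hlim' hν
  have hpos : (0 : ℝ) < k / 4 + 5 * l / 48 := by
    have : (0 : ℝ) < k + l := by exact_mod_cast hkl
    have h1 : (0 : ℝ) ≤ k := by positivity
    have h2 : (0 : ℝ) ≤ l := by positivity
    linarith
  refine ⟨?_, ?_, hcond, ?_, ?_⟩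
  · intro A hA
    filter_upwards [hT.upper hpos (dom_open R R') hA] with x hx
    rwa [hU] at hx
  · intro S hS hSD
    have := hT.ess hpos (dom_open R R') hS hSD
    simpa only [hU] using this
  · intro h
    have h2 : (2 : ℝ) < k / 4 + 5 * l / 48 := by
      have : (96 : ℝ) < 12 * k + 5 * l := by exact_mod_cast h
      linarith
    filter_upwards [hT.none h2 (dom_open R R')] with x hx
    rwa [hU] at hx
  · intro h hne
    have h2 : (k / 4 + 5 * l / 48 : ℝ) < 2 := by
      have : (12 * k + 5 * l : ℝ) < 96 := by exact_mod_cast h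
      linarith
    have h3 := hT.pos h2 (dom_open R R') hne
    have h4 := hT.meas_nonempty (open_sigma (dom_open R R'))
    simp only [hU] at h3 h4
    exact ⟨h4, h3⟩

end Pool.Agent.Results.MP_fe58d8_pr.IndependentIntersections
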