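import Pool.Agent.R965.EV.Top

/-!
# Law of the iterated logarithm for the exploration path at almost every time

Critical bond percolation on `δ ℤ²` in a rectangle `D = (-A, B) × (0, H)`, with the counterclockwise
boundary arc from `a = t + i H` to `b = 0` wired and the other one dual-wired. The exploration path
is parametrised by its number of steps: `Rect.curve` is the piecewise linear curve on `[0, 1]` run
at constant speed, and `Rect.time` is the number of steps times `δ ^ (7/4)`; `Rect.law` is the law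
of (curve, time). Weak limits exist along a subsequence of every sequence of meshes. For every weak
limit `(f, T)`, almost surely, for almost every time `t`, the upper limit of
`|f(s) - f(t)| / φ(T |s - t|)`, `s → t`, `φ(h) = h ^ (4/7) (log log (1/h)) ^ (3/7)`, is between `c`
and `C`; the constants `c, C > 0` are universal.

Definitions: `ll` and `phi` below; `Pool.Agent.H984R4.NP.Model` (`Rect`, `pos`, `clamp`, `pl`, `X`,
`Rect.dm`, `Rect.curve`, `Rect.time`, `Rect.law`), `Pool.Agent.H984R4.NP.Defs` (`Dm`, `Dm.edges`,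
`Dm.wir`, `Dm.cfg`, `Dm.walk`, `Dm.len`) and `Pool.Agent.H984R3.Per.Defs` (states, `ae`, `mv`, `rt`,
`nxt`, `orb`).

The plan of the proof and the lattice estimates are in the starting files (project EV of
`Pool.Agent.Y41.EV`); the remaining steps and the conclusion are in `Pool.Agent.R965.EV`.
-/

set_option autoImplicit false

namespace Pool.Agent.Results.MP_fe58d8_pr.LocalIteratedLogarithm

open H984N MeasureTheory Filter Topology

/-- `max 1 (log log (1/x))` -/
noncomputable def ll (x : ℝ) : ℝ := max 1 (Real.log (Real.log (1 / x)))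

/-- `φ(h) = h ^ (4/7) (log log (1/h)) ^ (3/7)` -/
noncomputable def phi (h : ℝ) : ℝ := h ^ (4/7 : ℝ) * ll h ^ (3/7 : ℝ)

theorem result : ∃ c C : ℝ, 0 < c ∧ 0 < C ∧ ∀ R : Rect,
    (∀ δ : ℕ → ℝ, (∀ i, 0 < δ i) → Tendsto δ atTop (𝓝 0) →
      ∃ φ : ℕ → ℕ, StrictMono φ ∧ ∃ μ : ProbabilityMeasure X,
        Tendsto (fun i => R.law (δ (φ i))) atTop (𝓝 μ)) ∧
    ∀ δ : ℕ → ℝ, (∀ i, 0 < δ i) → Tendsto δ atTop (𝓝 0) → ∀ μ : ProbabilityMeasure X,
      Tendsto (fun i => R.law (δ i)) atTop (𝓝 μ) →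
      ∀ᵐ p ∂(μ : Measure X), 0 < p.2 ∧ ∀ᵐ t : unitInterval,
        (∀ᶠ s : unitInterval in 𝓝 t, dist (p.1 s) (p.1 t) ≤ C * phi (p.2 * |(s : ℝ) - t|)) ∧
        (∃ᶠ s : unitInterval in 𝓝 t, c * phi (p.2 * |(s : ℝ) - t|) < dist (p.1 s) (p.1 t)) := by
  obtain ⟨_, _, c, C, _, _, hc, hC, h⟩ := Pool.Agent.R965.EV.ev_top
  refine ⟨c, C, hc, hC, fun R => ⟨(h R).1, fun δ hδ hlim μ hμ => ?_⟩⟩
  filter_upwards [(h R).2 δ hδ hlim μ hμ] with p hp
  obtain ⟨hp0, -, -, h1, h2⟩ := hp
  refine ⟨hp0, ?_⟩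
  filter_upwards [h1, h2] with t k1 k2
  exact ⟨k1, k2⟩

end Pool.Agent.Results.MP_fe58d8_pr.LocalIteratedLogarithm
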